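import Pool.Agent.E8helper48.RR.Stm2

set_option autoImplicit false

namespace Pool.Agent.E8helper54.RR

open Filter Topology Polynomial

/-- A bounded real sequence with differences tending to zero along which a continuous function that
is not identically zero on any interval tends to zero converges. -/
theorem conv_of_small (a : ℕ → ℝ) (K : ℝ) (H : ℝ → ℝ) (h0 : ∀ n, 0 ≤ a n) (hK : ∀ n, a n ≤ K)
    (hd : Tendsto (fun n => a (n + 1) - a n) atTop (𝓝 0)) (hc : Continuous H)
    (hz : ∀ s t : ℝ, s < t → ∃ c, s < c ∧ c < t ∧ H c ≠ 0)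
    (hH : Tendsto (fun n => H (a n)) atTop (𝓝 0)) :
    ∃ p : ℝ, Tendsto a atTop (𝓝 p) := by
  refine tendsto_of_no_upcrossings (s := Set.univ) dense_univ ?_ ?_ ?_
  · rintro s - t - hst ⟨h1, h2⟩
    obtain ⟨c, hsc, hct, hcn⟩ := hz s t hst
    have hη : 0 < |H c| / 2 := by positivity
    obtain ⟨δ, hδ, hδ'⟩ := Metric.continuous_iff.mp hc c (|H c| / 2) hη
    have e1 : ∀ᶠ n in atTop, |H (a n)| < |H c| / 2 := by
      have := (Metric.tendsto_nhds.mp hH) _ hη
      simpa [Real.dist_eq] using this
    have e2 : ∀ᶠ n in atTop, |a (n + 1) - a n| < δ := by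
      have := (Metric.tendsto_nhds.mp hd) _ hδ
      simpa [Real.dist_eq] using this
    obtain ⟨N, hN⟩ := eventually_atTop.mp (e1.and e2)
    obtain ⟨n1, hn1, hn1'⟩ := (frequently_atTop.mp h1) N
    obtain ⟨n2, hn2, hn2'⟩ := (frequently_atTop.mp h2) n1
    classical
    have hex : ∃ m, n1 ≤ m ∧ c < a m := ⟨n2, hn2, lt_trans hct hn2'⟩
    have hm := Nat.find_spec hex
    set m := Nat.find hex with hmdef
    have hm1 : m ≠ n1 := by
      intro h
      rw [h] at hm
      linarith [hm.2]
    obtain ⟨k, hk⟩ : ∃ k, m = k + 1 := ⟨m - 1, by omega⟩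
    have hk1 : n1 ≤ k := by omega
    have hk2 : a k ≤ c := by
      by_contra hcon
      push Not at hcon
      have := Nat.find_min' hex ⟨hk1, hcon⟩
      omega
    have hk3 : c < a (k + 1) := by rw [← hk]; exact hm.2
    have h5 := hN k (le_trans hn1 hk1)
    have h6 : dist (a k) c < δ := by
      rw [Real.dist_eq, abs_lt]
      have := abs_lt.mp h5.2
      constructor <;> linarith [this.1, this.2]
    have h7 := hδ' (a k) h6
    rw [Real.dist_eq] at h7
    have h8 : |H c| ≤ |H (a k)| + |H (a k) - H c| := by
      have := abs_sub_abs_le_abs_sub (H c) (H (a k))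
      rw [abs_sub_comm] at this
      linarith
    linarith [h5.1]
  · exact isBoundedUnder_of ⟨K, hK⟩
  · exact isBoundedUnder_of ⟨0, h0⟩

theorem t_FIN : RR48.S_FIN := by
  intro al A B D K x hal hA hB hD hK hx hd
  have hnn : ∀ n, 0 ≤ x n ∧ 0 ≤ x (n + 1) ∧ 0 ≤ x (n + 2) := by
    intro n
    induction n with
    | zero => exact ⟨hx.n0, hx.n1, hx.n2⟩
    | succ n ih =>
      refine ⟨ih.2.1, ih.2.2, ?_⟩
      rw [show n + 1 + 2 = n + 3 by ring, hx.step n]
      have := hx.den n
      have h1 := ih.2.1
      positivity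
  have h0 : ∀ n, 0 ≤ x n := fun n => (hnn n).1
  have hKn : 0 ≤ K := le_trans (h0 0) (hK 0)
  -- bounded times null sequences
  have hbd : ∀ (f g : ℕ → ℝ) (M : ℝ), (∀ n, |f n| ≤ M) → Tendsto g atTop (𝓝 0) →
      Tendsto (fun n => f n * g n) atTop (𝓝 0) := by
    intro f g M hf hg
    have hM : 0 ≤ M := le_trans (abs_nonneg _) (hf 0)
    have h1 : Tendsto (fun n => M * |g n|) atTop (𝓝 0) := by
      simpa using (hg.abs.const_mul M)
    refine squeeze_zero_norm (fun n => ?_) h1
    rw [Real.norm_eq_abs, abs_mul]
    exact mul_le_mul_of_nonneg_right (hf n) (abs_nonneg _)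
  have hab : ∀ n, |x n| ≤ K := fun n => by rw [abs_of_nonneg (h0 n)]; exact hK n
  have hd1 : Tendsto (fun n => x (n + 3) - x (n + 1)) atTop (𝓝 0) := by
    have := (tendsto_add_atTop_iff_nat 1).mpr hd
    refine this.congr (fun n => ?_)
    ring_nf
  -- the first relation
  have hF1 : Tendsto (fun n => x (n + 1) * (A + (B + D) * x n + x (n + 1)) - al - x (n + 1))
      atTop (𝓝 0) := by
    have t1 := hbd (fun n => A + B * x (n + 2) + x (n + 1) + D * x n)
      (fun n => x (n + 3) - x (n + 1)) (A + B * K + K + D * K) (fun n => by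
        have h1 := h0 n; have h2 := h0 (n + 1); have h3 := h0 (n + 2)
        rw [abs_of_nonneg (by positivity)]
        have i1 := mul_le_mul_of_nonneg_left (hK (n + 2)) hB
        have i2 := mul_le_mul_of_nonneg_left (hK n) hD.le
        linarith [hK (n + 1)]) hd1
    have t2 := hbd (fun n => x (n + 1) * B) (fun n => x (n + 2) - x n) (K * B) (fun n => by
        rw [abs_mul, abs_of_nonneg hB]
        exact mul_le_mul_of_nonneg_right (hab _) hB) hd
    have t3 := (t1.neg).sub t2
    simp only [neg_zero, sub_zero] at t3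
    refine t3.congr (fun n => ?_)
    have hs := hx.step n
    rw [eq_div_iff (hx.den n).ne'] at hs
    linear_combination (-1 : ℝ) * hs
  have hF1' : Tendsto (fun n => x (n + 2) * (A + (B + D) * x (n + 1) + x (n + 2)) - al
      - x (n + 2)) atTop (𝓝 0) := by
    have := (tendsto_add_atTop_iff_nat 1).mpr hF1
    exact this
  have hF2 : Tendsto (fun n => x n * (A + (B + D) * x (n + 1) + x n) - al - x n)
      atTop (𝓝 0) := by
    have t1 := hbd (fun n => A + (B + D) * x (n + 1) - 1 + x n + x (n + 2))
      (fun n => x (n + 2) - x n) (A + (B + D) * K + 1 + K + K) (fun n => by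
        have h1 := h0 n; have h2 := h0 (n + 1); have h3 := h0 (n + 2)
        have hBD : 0 ≤ B + D := by linarith
        have i1 := mul_le_mul_of_nonneg_left (hK (n + 1)) hBD
        have i2 := mul_nonneg hBD h2
        rw [abs_le]
        constructor
        · linarith [mul_nonneg hBD hKn]
        · linarith [hK n, hK (n + 2)]) hd
    have t3 := hF1'.sub t1
    simp only [sub_zero] at t3
    refine t3.congr (fun n => ?_)
    ring
  have hE : Tendsto (fun n => (x (n + 1) - x n) * (A + x (n + 1) + x n - 1)) atTop (𝓝 0) := by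
    have t3 := hF1.sub hF2
    simp only [sub_zero] at t3
    refine t3.congr (fun n => ?_)
    ring
  -- the polynomial
  set H : ℝ → ℝ := fun u => (u * (A + (B + D + 1) * u) - al - u) *
    ((B + D - 1) * u * (1 - A - u) - al) with hHdef
  have hcont : Continuous H := by
    rw [hHdef]; fun_prop
  have hH1 : Tendsto (fun n => H (x (n + 1))) atTop (𝓝 0) := by
    have b1 := hbd (fun n => x (n + 1) * (A + (B + D) * x n + x (n + 1)) - al - x (n + 1)
        - (B + D) * x (n + 1) * (A + x (n + 1) + x n - 1)
        + (B + D) * x (n + 1) * (x (n + 1) - x n))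
      (fun n => x (n + 1) * (A + (B + D) * x n + x (n + 1)) - al - x (n + 1))
      ((K * (A + (B + D) * K + K) + al + K) + (B + D) * K * (A + K + K + 1)
        + (B + D) * K * (K + K)) (fun n => by
        have h1 := h0 n; have h2 := h0 (n + 1)
        have hBD : 0 ≤ B + D := by linarith
        have k1 := hK n; have k2 := hK (n + 1)
        have q1 : |x (n + 1) * (A + (B + D) * x n + x (n + 1)) - al - x (n + 1)| ≤
            K * (A + (B + D) * K + K) + al + K := by
          have p1 : x (n + 1) * (A + (B + D) * x n + x (n + 1)) ≤ K * (A + (B + D) * K + K) := by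
            gcongr
          have p2 : 0 ≤ x (n + 1) * (A + (B + D) * x n + x (n + 1)) := by positivity
          have p3 : 0 ≤ K * (A + (B + D) * K + K) := by positivity
          rw [abs_le]
          constructor <;> linarith
        have q2 : |(B + D) * x (n + 1) * (A + x (n + 1) + x n - 1)| ≤
            (B + D) * K * (A + K + K + 1) := by
          rw [abs_mul, abs_of_nonneg (by positivity : 0 ≤ (B + D) * x (n + 1))]
          have p4 : |A + x (n + 1) + x n - 1| ≤ A + K + K + 1 := by
            rw [abs_le]; constructor <;> linarith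
          gcongr
        have q3 : |(B + D) * x (n + 1) * (x (n + 1) - x n)| ≤ (B + D) * K * (K + K) := by
          rw [abs_mul, abs_of_nonneg (by positivity : 0 ≤ (B + D) * x (n + 1))]
          have p4 : |x (n + 1) - x n| ≤ K + K := by
            rw [abs_le]; constructor <;> linarith
          gcongr
        calc _ ≤ |x (n + 1) * (A + (B + D) * x n + x (n + 1)) - al - x (n + 1)
              - (B + D) * x (n + 1) * (A + x (n + 1) + x n - 1)|
              + |(B + D) * x (n + 1) * (x (n + 1) - x n)| := abs_add_le _ _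
          _ ≤ (|x (n + 1) * (A + (B + D) * x n + x (n + 1)) - al - x (n + 1)|
              + |(B + D) * x (n + 1) * (A + x (n + 1) + x n - 1)|)
              + |(B + D) * x (n + 1) * (x (n + 1) - x n)| := by
            gcongr
            exact abs_sub _ _
          _ ≤ _ := by linarith) hF1
    have b2 := hbd (fun n => ((B + D) * x (n + 1)) ^ 2)
      (fun n => (x (n + 1) - x n) * (A + x (n + 1) + x n - 1)) (((B + D) * K) ^ 2) (fun n => by
        have h2 := h0 (n + 1)
        have hBD : 0 ≤ B + D := by linarith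
        rw [abs_of_nonneg (by positivity)]
        have := hK (n + 1)
        gcongr) hE
    have t3 := b1.sub b2
    simp only [sub_zero] at t3
    refine t3.congr (fun n => ?_)
    rw [hHdef]
    ring
  have hH : Tendsto (fun n => H (x n)) atTop (𝓝 0) :=
    (tendsto_add_atTop_iff_nat 1).mp hH1
  have hz : ∀ s t : ℝ, s < t → ∃ c, s < c ∧ c < t ∧ H c ≠ 0 := by
    intro s t hst
    set P : ℝ[X] := (X * (C A + C (B + D + 1) * X) - C al - X) *
      (C (B + D - 1) * X * (C (1 - A) - X) - C al) with hP
    have hev : ∀ c, P.eval c = H c := by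
      intro c
      rw [hP, hHdef]
      simp
    have hP0 : P ≠ 0 := by
      intro h
      have h1 := hev 0
      rw [h, hHdef] at h1
      simp at h1
      exact hal.ne' h1
    obtain ⟨c, hc, hc'⟩ := (Set.Ioo_infinite hst).exists_notMem_finset P.roots.toFinset
    refine ⟨c, hc.1, hc.2, fun h => hc' ?_⟩
    rw [Multiset.mem_toFinset, mem_roots hP0, IsRoot.def, hev c, h]
  have h2 : Tendsto (fun k : ℕ => 2 * k) atTop atTop :=
    tendsto_id.const_mul_atTop' (by norm_num)
  have h21 : Tendsto (fun k : ℕ => 2 * k + 1) atTop atTop :=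
    tendsto_atTop_mono (fun k => by simp) h2
  obtain ⟨p, hp⟩ := conv_of_small (fun k => x (2 * k)) K H (fun n => h0 _) (fun n => hK _)
    ((hd.comp h2).congr (fun n => by simp only [Function.comp_def]; ring_nf)) hcont hz
    (hH.comp h2)
  obtain ⟨q, hq⟩ := conv_of_small (fun k => x (2 * k + 1)) K H (fun n => h0 _) (fun n => hK _)
    ((hd.comp h21).congr (fun n => by simp only [Function.comp_def]; ring_nf)) hcont hz
    (hH.comp h21)
  exact ⟨p, q, hp, hq⟩

end Pool.Agent.E8helper54.RR
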